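import Mathlib
import Pool.Agent.R757.VHLower
import Pool.Agent.R757.VHExample

/-!
# Components of the visual hull of separated convex bodies (MP_1d6f1e)

The assertion of Q1 is true for closed bodies and for open bodies, in every dimension; for
arbitrary bodies the visual hull has at least `n` components, but for `n = 3` it can have more,
so the assertion as posed (for arbitrary bounded convex sets with nonempty interior) is false.
-/

namespace Pool.Agent.Results.MP_1d6f1e_gt.HullComponents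

open Set Pool.Agent.R757.VH

/-- Euclidean space of dimension `n`. -/
abbrev En (n : ℕ) : Type := EuclideanSpace ℝ (Fin n)

/-- The visual hull of `S`: the points `x` such that `x + m` meets `S` for every one-dimensional
linear subspace `m`. -/
def visualHull {n : ℕ} (S : Set (En n)) : Set (En n) :=
  {x | ∀ m : Submodule ℝ (En n), Module.finrank ℝ m = 1 →
    (((fun v => x + v) '' (m : Set (En n))) ∩ S).Nonempty}

/-- A body: a bounded convex set with nonempty interior (not necessarily closed). -/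
def IsBody {n : ℕ} (S : Set (En n)) : Prop :=
  Bornology.IsBounded S ∧ Convex ℝ S ∧ (interior S).Nonempty

/-- Strictly separated: for `i ≠ j` there is an affine hyperplane `{y | ⟪a, y⟫ = c}`, `a ≠ 0`, such
that `S i` and `S j` lie in the two different open half-spaces bounded by it. -/
def StrictlySeparated {n : ℕ} (S : Fin n → Set (En n)) : Prop :=
  ∀ i j, i ≠ j → ∃ (a : En n) (c : ℝ), a ≠ 0 ∧
    (∀ y ∈ S i, c < inner ℝ a y) ∧ (∀ y ∈ S j, inner ℝ a y < c)

/-- The number of connected components of `X`, as a cardinal. -/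
noncomputable def numComponents {n : ℕ} (X : Set (En n)) : Cardinal :=
  Cardinal.mk (ConnectedComponents X)

/-- The assertion of Q1. -/
def Q1 : Prop :=
  ∀ n : ℕ, 1 ≤ n → ∀ S : Fin n → Set (En n), (∀ i, IsBody (S i)) → StrictlySeparated S →
    numComponents (visualHull (⋃ i, S i)) = n

theorem visualHull_eq {n : ℕ} (S : Set (En n)) : visualHull S = hull S := by
  ext x
  constructor
  · intro h w hw
    obtain ⟨y, ⟨v, hv, rfl⟩, hy⟩ := h (ℝ ∙ w) (finrank_span_singleton hw)
    obtain ⟨t, rfl⟩ := Submodule.mem_span_singleton.1 hv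
    exact ⟨t, hy⟩
  · intro h m hm
    obtain ⟨⟨w, hwm⟩, hw, -⟩ := finrank_eq_one_iff'.1 hm
    have hw' : w ≠ 0 := fun h0 => hw (by simp [h0])
    obtain ⟨t, ht⟩ := h w hw'
    exact ⟨x + t • w, ⟨t • w, m.smul_mem t hwm, rfl⟩, ht⟩

theorem exists_sep {n : ℕ} (S : Fin n → Set (En n)) (h : StrictlySeparated S) :
    ∃ (φ : Fin n → Fin n → (En n →L[ℝ] ℝ)) (c : Fin n → Fin n → ℝ), Sep S φ c := by
  have h' : ∀ i j, ∃ (a : En n) (c : ℝ), i ≠ j →
      (∀ y ∈ S i, c < inner ℝ a y) ∧ (∀ y ∈ S j, inner ℝ a y < c) := by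
    intro i j
    by_cases hij : i = j
    · exact ⟨0, 0, fun h => absurd hij h⟩
    · obtain ⟨a, c, -, h1, h2⟩ := h i j hij
      exact ⟨a, c, fun _ => ⟨h1, h2⟩⟩
  choose a c hac using h'
  refine ⟨fun i j => innerSL ℝ (a i j) - innerSL ℝ (a j i), fun i j => c i j - c j i,
    ⟨fun i j => by simp, fun i j => by simp, ?_⟩⟩
  intro i j hij y hy
  have h1 := (hac i j hij).1 y hy
  have h2 := (hac j i hij.symm).2 y hy
  simp only [sub_apply, innerSL_apply_apply]
  linarith

theorem lower {n : ℕ} (hn : 1 ≤ n) (S : Fin n → Set (En n)) (hb : ∀ i, IsBody (S i))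
    (hs : StrictlySeparated S) : (n : Cardinal) ≤ numComponents (visualHull (⋃ i, S i)) := by
  obtain ⟨φ, c, hsep⟩ := exists_sep S hs
  have hne : ∀ i, (S i).Nonempty := fun i => (hb i).2.2.mono interior_subset
  choose s hs' using hne
  have h1 := comps_ge hsep s hs' (fun x hx =>
    hull_cover (by simp) hn (fun i => (hb i).2.1) hsep hx)
  have h2 := Cardinal.mk_le_of_injective h1
  rw [visualHull_eq, numComponents]
  simpa using h2

theorem upper {n : ℕ} (hn : 1 ≤ n) (S : Fin n → Set (En n)) (hb : ∀ i, IsBody (S i))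
    (hco : (∀ i, IsClosed (S i)) ∨ (∀ i, IsOpen (S i))) :
    numComponents (visualHull (⋃ i, S i)) ≤ n := by
  have hne : ∀ i, (S i).Nonempty := fun i => (hb i).2.2.mono interior_subset
  have hc : ∀ i, Convex ℝ (S i) := fun i => (hb i).2.1
  choose s hs' using hne
  have hco' : (∀ i, IsCompact (S i)) ∨ (∀ i, IsOpen (S i)) := by
    rcases hco with h | h
    · exact Or.inl fun i => Metric.isCompact_of_isClosed_isBounded (h i) (hb i).1
    · exact Or.inr h
  have h1 := comps_le hc hn s hs' (fun x hx hxS =>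
    ray_of_closed_or_open (by simp) hn hc (fun i => ⟨s i, hs' i⟩) hco' x hx hxS)
  have h2 := Cardinal.mk_le_of_surjective h1
  rw [visualHull_eq, numComponents]
  simpa using h2

theorem example_bodies : ∃ S : Fin 3 → Set (En 3), (∀ i, IsBody (S i)) ∧ StrictlySeparated S ∧
    4 ≤ numComponents (visualHull (⋃ i, S i)) := by
  refine ⟨Sex, ?_, ?_, ?_⟩
  · apply forall3
    · exact ⟨bdd0, conv0, int0⟩
    · exact ⟨bdd1, conv1, int1⟩
    · exact ⟨bdd2, conv2, int2⟩
  · -- separation
    have hneg : ∀ i j, (∃ (a : En 3) (c : ℝ), a ≠ 0 ∧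
        (∀ y ∈ Sex i, c < inner ℝ a y) ∧ (∀ y ∈ Sex j, inner ℝ a y < c)) →
        (∃ (a : En 3) (c : ℝ), a ≠ 0 ∧
        (∀ y ∈ Sex j, c < inner ℝ a y) ∧ (∀ y ∈ Sex i, inner ℝ a y < c)) := by
      rintro i j ⟨a, c, ha, h1, h2⟩
      refine ⟨-a, -c, neg_ne_zero.2 ha, fun y hy => ?_, fun y hy => ?_⟩
      · rw [inner_neg_left]
        have := h2 y hy
        linarith
      · rw [inner_neg_left]
        have := h1 y hy
        linarith
    have hin : ∀ a0 a1 a2 : ℝ, ∀ y : En 3, inner ℝ (!₂[a0, a1, a2] : En 3) y =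
        a0 * y 0 + a1 * y 1 + a2 * y 2 := by
      intro a0 a1 a2 y
      rw [PiLp.inner_apply, Fin.sum_univ_three]
      simp
      ring
    have h01 : ∃ (a : En 3) (c : ℝ), a ≠ 0 ∧
        (∀ y ∈ Sex 0, c < inner ℝ a y) ∧ (∀ y ∈ Sex 1, inner ℝ a y < c) := by
      refine ⟨!₂[1, 0, 0], 7 / 4, ?_, ?_, ?_⟩
      · intro h
        have := congrArg (fun x : En 3 => x 0) h
        simp at this
      · rintro y (⟨k1, k2, k3, k4, k5⟩ | ⟨k1, k2, k3, k4⟩) <;> rw [hin] <;> linarith
      · rintro y (⟨k1, k2, k3, k4, k5⟩ | ⟨k1, k2, k3, k4⟩) <;> rw [hin] <;> linarith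
    have h20 : ∃ (a : En 3) (c : ℝ), a ≠ 0 ∧
        (∀ y ∈ Sex 2, c < inner ℝ a y) ∧ (∀ y ∈ Sex 0, inner ℝ a y < c) := by
      refine ⟨!₂[1, -2, 4], 19 / 2, ?_, ?_, ?_⟩
      · intro h
        have := congrArg (fun x : En 3 => x 0) h
        simp at this
      · rintro y (⟨k1, k2, k3, k4, k5⟩ | ⟨k1, k2, k3, k4⟩) <;> rw [hin] <;> linarith
      · rintro y (⟨k1, k2, k3, k4, k5⟩ | ⟨k1, k2, k3, k4⟩) <;> rw [hin] <;> linarith
    have h21 : ∃ (a : En 3) (c : ℝ), a ≠ 0 ∧
        (∀ y ∈ Sex 2, c < inner ℝ a y) ∧ (∀ y ∈ Sex 1, inner ℝ a y < c) := by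
      refine ⟨!₂[1, -2, 4], 19 / 2, ?_, ?_, ?_⟩
      · intro h
        have := congrArg (fun x : En 3 => x 0) h
        simp at this
      · rintro y (⟨k1, k2, k3, k4, k5⟩ | ⟨k1, k2, k3, k4⟩) <;> rw [hin] <;> linarith
      · rintro y (⟨k1, k2, k3, k4, k5⟩ | ⟨k1, k2, k3, k4⟩) <;> rw [hin] <;> linarith
    intro i j hij
    fin_cases i <;> fin_cases j
    · exact absurd rfl hij
    · exact h01
    · exact hneg _ _ h20
    · exact hneg _ _ h01
    · exact absurd rfl hij
    · exact hneg _ _ h21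
    · exact h20
    · exact h21
    · exact absurd rfl hij
  · rw [visualHull_eq, numComponents]
    exact four_le

/-- **Q1 as posed is false** (three bodies in `ℝ³` whose visual hull has at least 4 components),
while for every `n ≥ 1` the visual hull of `n` strictly separated bodies in `ℝⁿ` has at least `n`
components, and exactly `n` if the bodies are closed, or if they are open. -/
theorem result : ¬ Q1 ∧
    (∃ S : Fin 3 → Set (En 3), (∀ i, IsBody (S i)) ∧ StrictlySeparated S ∧
      4 ≤ numComponents (visualHull (⋃ i, S i))) ∧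
    (∀ n : ℕ, 1 ≤ n → ∀ S : Fin n → Set (En n), (∀ i, IsBody (S i)) → StrictlySeparated S →
      (n : Cardinal) ≤ numComponents (visualHull (⋃ i, S i)) ∧
      (((∀ i, IsClosed (S i)) ∨ (∀ i, IsOpen (S i))) →
        numComponents (visualHull (⋃ i, S i)) = n)) := by
  refine ⟨?_, example_bodies, ?_⟩
  · intro hQ
    obtain ⟨S, hb, hs, h4⟩ := example_bodies
    have h3 := hQ 3 (by norm_num) S hb hs
    rw [h3] at h4
    have : (4 : ℕ) ≤ 3 := by exact_mod_cast h4
    omega
  · intro n hn S hb hs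
    refine ⟨lower hn S hb hs, fun hco => ?_⟩
    exact le_antisymm (upper hn S hb hco) (lower hn S hb hs)

end Pool.Agent.Results.MP_1d6f1e_gt.HullComponents
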